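import Pool.Agent.Helper83.ET.Fix

set_option autoImplicit false

/-! The local-global principle for two-cocycles. -/

namespace Pool.Agent.Helper83.ET

open Pool.Agent.ETC
open Pool.Agent.Helper59.EA (IsCoc CobOn Cob ProP)
open Pool.Agent.Helper95.EC

section

variable {F K : Type} [Field F] [Field K] [Algebra F K]

/-- a character with the Kummer property is `chi` -/
lemma chi_of_isChi {p : ℕ} [Fact p.Prime] (h : PCl p F K) {ζ : F} (hζ : IsPrimitiveRoot ζ p)
    {a : Fˣ} {χ : (K ≃ₐ[F] K) → ZMod p} (hχ : IsChi p ζ a χ) : χ = chi p ζ a := by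
  funext g
  obtain ⟨α, hα⟩ := exists_kumroot h a
  exact (chi_eq hζ hα (hχ α hα g)).symm

lemma isChi_chi {p : ℕ} [Fact p.Prime] {ζ : F} (hζ : IsPrimitiveRoot ζ p)
    (a : Fˣ) : IsChi (K := K) p ζ a (chi p ζ a) := fun _ hα g => chi_spec hζ hα g

/-- a cocycle from an open subgroup is locally constant -/
lemma coc_lc {G : Type} [Group G] [TopologicalSpace G] [IsTopologicalGroup G] {p : ℕ}
    {N : Subgroup G} (ho : IsOpen (N : Set G)) {c : G → G → ZMod p} (hc : IsCoc p N c) :
    IsLocallyConstant (fun q : G × G => c q.1 q.2) := by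
  rw [IsLocallyConstant.iff_exists_open]
  rintro ⟨x, y⟩
  refine ⟨(fun q : G × G => (x⁻¹ * q.1, y⁻¹ * q.2)) ⁻¹' ((N : Set G) ×ˢ (N : Set G)), ?_, ?_, ?_⟩
  · refine (ho.prod ho).preimage ?_
    exact (continuous_const.mul continuous_fst).prodMk (continuous_const.mul continuous_snd)
  · simp
  · rintro ⟨x', y'⟩ ⟨h1, h2⟩
    have e1 : x' = x * (x⁻¹ * x') := by rw [mul_inv_cancel_left]
    have e2 : y' = y * (y⁻¹ * y') := by rw [mul_inv_cancel_left]
    change c x' y' = c x y
    rw [e1, e2]
    exact hc.2 x y _ h1 _ h2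

/-- restriction of coboundaries along a continuous homomorphism -/
lemma cobOn_comap {G G' : Type} [Group G] [TopologicalSpace G] [Group G'] [TopologicalSpace G']
    {p : ℕ} (f : G' →* G) (hf : Continuous f) {c : G → G → ZMod p} {Z : Subgroup G}
    {Z' : Subgroup G'} (hZ : Z'.map f ≤ Z) (h : CobOn p Z c) :
    CobOn p Z' fun x y => c (f x) (f y) := by
  obtain ⟨ρ, h1, h2⟩ := h
  let r : Z' → Z := fun x => ⟨f x, hZ ⟨x, x.2, rfl⟩⟩
  have hr : Continuous r := (hf.comp continuous_subtype_val).subtype_mk _
  refine ⟨fun x => ρ (r x), h1.comp_continuous hr, fun x y => ?_⟩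
  have h3 := h2 (r x) (r y)
  have h4 : r x * r y = r (x * y) := Subtype.ext (map_mul f (x : G') (y : G')).symm
  rw [h4] at h3
  exact h3

end

/-- **LG**, from `PCLUP` -/
theorem t_LG (hPU : S_PCLUP) : S_LG := by
  intro p _ K _ C D hC hD hS
  have main : ∀ n : ℕ, ∀ (F : Type) [Field F] [Algebra F K], (∃ ζ : F, IsPrimitiveRoot ζ p) →
      PCl p F K → C F → ∀ N : Subgroup (K ≃ₐ[F] K), N.Normal → IsOpen (N : Set (K ≃ₐ[F] K)) →
      N.index ≤ n → ∀ c : (K ≃ₐ[F] K) → (K ≃ₐ[F] K) → ZMod p, IsCoc p N c →
        (∀ Z : Subgroup (K ≃ₐ[F] K), D F Z → CobOn p Z c) → Cob p c := by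
    intro n
    induction n with
    | zero =>
      intro F _ _ hζ hP hCF N hn ho hNn c hc hloc
      exfalso
      obtain ⟨k, hk⟩ := proP hP N hn ho
      rw [hk] at hNn
      exact absurd (Nat.le_zero.1 hNn) (pow_ne_zero _ (Fact.out : p.Prime).ne_zero)
    | succ n ih =>
      intro F _ _ hζ hP hCF N hn ho hNn c hc hloc
      have hgal := hP.gal
      obtain ⟨ζ, hζ⟩ := hζ
      by_cases hNt : N = ⊤
      · -- a constant cocycle
        refine ⟨fun _ => c 1 1, IsLocallyConstant.const _, fun x y => ?_⟩
        have h1 := hc.2 1 1 x (by rw [hNt]; exact Subgroup.mem_top x) y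
          (by rw [hNt]; exact Subgroup.mem_top y)
        rw [one_mul, one_mul] at h1
        rw [h1, add_sub_cancel_right]
      obtain ⟨a, haN, σ, hσ⟩ := exists_a hP hζ N hn ho hNt
      -- the kernel of the character
      let U : Subgroup (K ≃ₐ[F] K) :=
        { carrier := {g | chi p ζ a g = 0}
          mul_mem' := by
            intro g k hg hk
            change chi p ζ a (g * k) = 0
            rw [chi_mul hP hζ, show chi p ζ a g = 0 from hg, show chi p ζ a k = 0 from hk, add_zero]
          one_mem' := chi_at_one hP hζ a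
          inv_mem' := by
            intro g hg
            change chi p ζ a g⁻¹ = 0
            rw [chi_at_inv hP hζ, show chi p ζ a g = 0 from hg, neg_zero] }
      have hUm : ∀ g, g ∈ U ↔ chi p ζ a g = 0 := fun g => Iff.rfl
      have hUn : U.Normal := by
        constructor
        intro u hu g
        rw [hUm] at hu ⊢
        rw [chi_mul hP hζ, chi_mul hP hζ, chi_at_inv hP hζ, hu, add_zero, add_neg_cancel]
      have hUo : IsOpen (U : Set (K ≃ₐ[F] K)) := (chi_lc hP hζ a).isOpen_fiber 0
      have hNU : N ≤ U := haN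
      -- the index of `U` is `p`
      have hUi : U.index = p := by
        obtain ⟨k, hk⟩ := proP hP U hUn hUo
        let χ' : (K ≃ₐ[F] K) →* Multiplicative (ZMod p) :=
          { toFun := fun g => Multiplicative.ofAdd (chi p ζ a g)
            map_one' := by rw [chi_at_one hP hζ, ofAdd_zero]
            map_mul' := fun g k => by rw [chi_mul hP hζ, ofAdd_add] }
        have hker : χ'.ker = U := by
          ext g
          rw [MonoidHom.mem_ker, hUm]
          constructor
          · intro h
            exact Multiplicative.ofAdd.injective h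
          · intro h
            change Multiplicative.ofAdd (chi p ζ a g) = 1
            rw [h, ofAdd_zero]
        have hdvd : U.index ∣ p := by
          rw [← hker, Subgroup.index_ker]
          have h1 := Subgroup.card_subgroup_dvd_card χ'.range
          rwa [Nat.card_congr Multiplicative.toAdd, Nat.card_zmod] at h1
        rcases (Nat.dvd_prime Fact.out).1 hdvd with h1 | h1
        · exfalso
          rw [Subgroup.index_eq_one] at h1
          have h2 : σ ∈ U := by rw [h1]; exact Subgroup.mem_top σ
          rw [hUm, hσ] at h2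
          exact one_ne_zero h2
        · exact h1
      obtain ⟨hE1, hE2, hE3, hE4⟩ := fixed_props U hUn hUo
      rw [hUi] at hE4
      obtain ⟨E, hE⟩ : ∃ E : IntermediateField F K, E = IntermediateField.fixedField U := ⟨_, rfl⟩
      rw [← hE] at hE1 hE2 hE3 hE4
      have hPE : PCl p E K := hPU p F E K hP
      have hCE : C E := hC F E ⟨ζ, hζ⟩ hE4 hCF
      have hζE : ∃ ζ' : E, IsPrimitiveRoot ζ' p :=
        ⟨algebraMap F E ζ, hζ.map_of_injective (algebraMap F E).injective⟩
      have hrange : (resS F E K).range = U := by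
        ext g
        rw [mem_range_resS, ← hE1]
        constructor
        · intro h x
          exact h x
        · intro h e
          exact h e
      have hcont : Continuous (resS F E K) := resS_continuous
      -- the group over `E`
      have hN' : (N.comap (resS F E K)).Normal := hn.comap _
      have hNo' : IsOpen ((N.comap (resS F E K) : Subgroup (K ≃ₐ[E] K)) : Set (K ≃ₐ[E] K)) :=
        ho.preimage hcont
      have hidx : (N.comap (resS F E K)).index ≤ n := by
        rw [Subgroup.index_comap, hrange]
        have h1 := Subgroup.relIndex_mul_index hNU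
        rw [hUi] at h1
        have h2 : 2 ≤ p := (Fact.out : p.Prime).two_le
        have h3 : 0 < N.index := by
          obtain ⟨k, hk⟩ := proP hP N hn ho
          rw [hk]
          exact pow_pos (Fact.out : p.Prime).pos _
        have h4 : N.relIndex U < N.index := by
          rw [← h1] at h3 ⊢
          have h5 : 0 < N.relIndex U := by
            rcases Nat.eq_zero_or_pos (N.relIndex U) with h6 | h6
            · rw [h6, zero_mul] at h3
              exact absurd h3 (lt_irrefl _)
            · exact h6
          nlinarith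
        omega
      have hcE : IsCoc p (N.comap (resS F E K)) fun x y => c (resS F E K x) (resS F E K y) := by
        constructor
        · intro x y z
          have := hc.1 (resS F E K x) (resS F E K y) (resS F E K z)
          rwa [← map_mul, ← map_mul] at this
        · intro x y m hm k hk
          change c (resS F E K (x * m)) (resS F E K (y * k)) = c (resS F E K x) (resS F E K y)
          rw [map_mul, map_mul]
          exact hc.2 _ _ _ hm _ hk
      obtain ⟨ρE, hρE, hρE'⟩ := ih E hζE hPE hCE _ hN' hNo' hidx _ hcE (by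
        intro Z hZ
        obtain ⟨Z', hZ', hle⟩ := hD F E ⟨ζ, hζ⟩ hP hE4 hCF Z hZ
        exact cobOn_comap _ hcont hle (hloc Z' hZ'))
      -- extension to the whole group
      have hopen := resS_openEmbedding (F := F) (E := E) (K := K)
      classical
      let ρ : (K ≃ₐ[F] K) → ZMod p := fun g =>
        if h : ∃ σ : K ≃ₐ[E] K, resS F E K σ = g then ρE h.choose else 0
      have hρv : ∀ σ : K ≃ₐ[E] K, ρ (resS F E K σ) = ρE σ := by
        intro σ
        have h : ∃ τ : K ≃ₐ[E] K, resS F E K τ = resS F E K σ := ⟨σ, rfl⟩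
        change (if h : ∃ τ : K ≃ₐ[E] K, resS F E K τ = resS F E K σ then ρE h.choose else 0) = _
        rw [dif_pos h]
        congr 1
        exact resS_inj h.choose_spec
      have hρ0 : ∀ g, g ∉ U → ρ g = 0 := by
        intro g hg
        change (if h : ∃ τ : K ≃ₐ[E] K, resS F E K τ = g then ρE h.choose else 0) = _
        rw [dif_neg]
        rintro ⟨τ, hτ⟩
        apply hg
        rw [← hrange]
        exact ⟨τ, hτ⟩
      have hρlc : IsLocallyConstant ρ := by
        rw [IsLocallyConstant.iff_exists_open]
        intro g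
        by_cases hg : g ∈ U
        · rw [← hrange] at hg
          obtain ⟨τ, rfl⟩ := hg
          refine ⟨resS F E K '' (ρE ⁻¹' {ρE τ}), ?_, ⟨τ, rfl, rfl⟩, ?_⟩
          · exact hopen.isOpenMap _ (hρE.isOpen_fiber _)
          · rintro _ ⟨τ', h1, rfl⟩
            rw [hρv, hρv]
            exact h1
        · refine ⟨(U : Set (K ≃ₐ[F] K))ᶜ, ?_, hg, fun g' hg' => ?_⟩
          · exact (OpenSubgroup.isClosed ⟨U, hUo⟩).isOpen_compl
          · rw [hρ0 g hg, hρ0 g' hg']
      have hcρ : ∀ u v, chi p ζ a u = 0 → chi p ζ a v = 0 → c u v = ρ u + ρ v - ρ (u * v) := by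
        intro u v hu hv
        rw [← hUm, ← hrange] at hu hv
        obtain ⟨u, rfl⟩ := hu
        obtain ⟨v, rfl⟩ := hv
        rw [← map_mul, hρv, hρv, hρv]
        exact hρE' u v
      -- `c` is cohomologous to a symbol
      obtain ⟨β, χb, ρ', h1, h2, h3, h4⟩ := c2 (galF hP) (hz hζ K) (fun g => zfix g) hP.root
        (chi_mul hP hζ a) (chi_lc hP hζ a) hσ hc.1 (coc_lc ho hc) hρlc hcρ
      obtain ⟨e, he⟩ := mem_of_fix hP hζ (x := vl (p • β)) (fun g => by
        have h5 := congrArg vl (h1 g)
        rw [vl_smul] at h5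
        exact h5)
      have he0 : e ≠ 0 := by
        rintro rfl
        rw [map_zero] at he
        exact vl_ne _ he.symm
      have h5 : p • β = emb K (Units.mk0 e he0) := by
        apply vl_inj
        rw [vl_emb, Units.val_mk0, he]
      have h6 : ∀ g, chi p ζ (Units.mk0 e he0) g = χb g := fun g => chi_kum_iff hζ h5 (h2 g)
      -- the symbol is locally zero
      have h7 : ∀ Z : Subgroup (K ≃ₐ[F] K), D F Z → LocZ p ζ Z (Units.mk0 e he0) a := by
        intro Z hZ χ ψ hχ hψ
        rw [chi_of_isChi hP hζ hχ, chi_of_isChi hP hζ hψ]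
        obtain ⟨ρZ, h8, h9⟩ := hloc Z hZ
        refine ⟨fun x => ρZ x - ρ' x, ?_, ?_⟩
        · have h10 : IsLocallyConstant (fun x : Z => ρ' (x : K ≃ₐ[F] K)) :=
            h3.comp_continuous continuous_subtype_val
          exact h8.sub h10
        · intro x y
          have h10 := h9 x y
          rw [h4 x y] at h10
          change chi p ζ (Units.mk0 e he0) (x : K ≃ₐ[F] K) * chi p ζ a (y : K ≃ₐ[F] K) =
            ρZ x - ρ' (x : K ≃ₐ[F] K) + (ρZ y - ρ' (y : K ≃ₐ[F] K)) -
            (ρZ (x * y) - ρ' ((x * y : Z) : K ≃ₐ[F] K))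
          rw [h6, Subgroup.coe_mul]
          linear_combination h10
      obtain ⟨ρg, h8, h9⟩ := hS F ζ hζ hP hCF _ a h7 _ _ (isChi_chi hζ _) (isChi_chi hζ a)
      refine ⟨fun x => ρg x + ρ' x, h8.add h3, fun x y => ?_⟩
      have h10 : chi p ζ (Units.mk0 e he0) x * chi p ζ a y = ρg x + ρg y - ρg (x * y) := h9 x y
      rw [h6] at h10
      change c x y = ρg x + ρ' x + (ρg y + ρ' y) - (ρg (x * y) + ρ' (x * y))
      rw [h4 x y]
      linear_combination h10
  intro F _ _ hζ hP hCF N hn ho c hc hloc
  exact main N.index F hζ hP hCF N hn ho le_rfl c hc hloc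

end Pool.Agent.Helper83.ET
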