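import Mathlib
import Pool.Agent.ETC.Base
import Pool.Agent.Helper59.EA.Frat

set_option autoImplicit false

/-! The group `Gal(K/E)` as an open subgroup of `Gal(K/F)`. -/

namespace Pool.Agent.Helper83.ET

open Pool.Agent.ETC
open scoped Topology

section

variable {F E K : Type} [Field F] [Field E] [Field K] [Algebra F E] [Algebra E K] [Algebra F K]
  [IsScalarTower F E K]

lemma resS_apply (σ : K ≃ₐ[E] K) (x : K) : resS F E K σ x = σ x := rfl

lemma resS_inj : Function.Injective (resS F E K) := by
  intro σ τ h
  ext x
  exact DFunLike.congr_fun h x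

lemma resS_continuous [Algebra.IsIntegral F K] : Continuous (resS F E K) := by
  apply continuous_of_continuousAt_one
  intro s hs
  rw [map_one, krullTopology_mem_nhds_one_iff] at hs
  obtain ⟨L, hL, hLs⟩ := hs
  rw [Filter.mem_map, krullTopology_mem_nhds_one_iff]
  -- generators
  let b := Module.finBasis F L
  have hint : ∀ x ∈ Set.range (fun i => ((b i : L) : K)), IsIntegral E x := by
    rintro x ⟨i, rfl⟩
    exact (Algebra.IsIntegral.isIntegral (R := F) ((b i : L) : K)).tower_top
  refine ⟨IntermediateField.adjoin E (Set.range fun i => ((b i : L) : K)), ?_, ?_⟩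
  · exact IntermediateField.finiteDimensional_adjoin hint
  · intro σ hσ
    apply hLs
    have h1 : ∀ i, σ ((b i : L) : K) = ((b i : L) : K) := by
      intro i
      exact hσ ⟨_, IntermediateField.subset_adjoin E _ ⟨i, rfl⟩⟩
    intro x
    change σ (x : K) = x
    have h2 := b.sum_repr x
    have h3 : (x : K) = ∑ i, algebraMap F K (b.repr x i) * ((b i : L) : K) := by
      conv_lhs => rw [← h2]
      push_cast
      refine Finset.sum_congr rfl fun i _ => ?_
      rw [Algebra.smul_def]
    rw [h3, map_sum]
    refine Finset.sum_congr rfl fun i _ => ?_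
    rw [map_mul, h1, IsScalarTower.algebraMap_apply F E K, σ.commutes]

lemma mem_range_resS {g : K ≃ₐ[F] K} :
    g ∈ (resS F E K).range ↔ ∀ e : E, g (algebraMap E K e) = algebraMap E K e := by
  constructor
  · rintro ⟨σ, rfl⟩ e
    exact σ.commutes e
  · intro h
    exact ⟨{ g.toRingEquiv with commutes' := h }, by ext; rfl⟩

lemma resS_openEmbedding [FiniteDimensional F E] [IsGalois F K] :
    Topology.IsOpenEmbedding (resS F E K) := by
  have : IsGalois E K := IsGalois.tower_top_of_isGalois F E K
  have h1 : Topology.IsClosedEmbedding (resS F E K) := resS_continuous.isClosedEmbedding resS_inj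
  refine ⟨h1.isEmbedding, ?_⟩
  have h2 : IsOpen ((IsScalarTower.toAlgHom F E K).fieldRange.fixingSubgroup :
      Set (K ≃ₐ[F] K)) := by
    have : FiniteDimensional F (IsScalarTower.toAlgHom F E K).fieldRange :=
      LinearEquiv.finiteDimensional
        (AlgEquiv.ofInjectiveField (IsScalarTower.toAlgHom F E K)).toLinearEquiv
    exact IntermediateField.fixingSubgroup_isOpen _
  convert h2 using 1
  ext g
  constructor
  · rintro ⟨σ, rfl⟩ ⟨x, ⟨e, rfl⟩⟩
    exact σ.commutes e
  · intro h
    have h3 : g ∈ (resS F E K).range := by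
      rw [mem_range_resS]
      intro e
      exact h ⟨algebraMap E K e, ⟨e, rfl⟩⟩
    exact h3

end

end Pool.Agent.Helper83.ET
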