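import Mathlib
import Pool.Agent.ETC.All
import Pool.Agent.Helper59.EA.Props
import Pool.Agent.Helper83.ET.LG
import Pool.Agent.Helper83.ET.ResS

set_option autoImplicit false

/-! # Elementary Type Conjecture: the frozen statement from the modules

`final` : S_COVER, S_STARA, S_FIN, S_FG, S_PCLUP, S_XF, S_NORMCUP imply the statement S17141. -/

namespace Pool.Agent.Helper83.ET

open Pool.Agent.ETC
open Pool.Agent.Helper59.EA (LG Gen Loc)

/-- the class `Dz` goes down -/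
theorem dz_down (hStar : S_STARA) {p : ℕ} [Fact p.Prime] {F E K : Type} [Field F] [Field E]
    [Field K] [Algebra F E] [Algebra E K] [Algebra F K] [IsScalarTower F E K]
    [FiniteDimensional F E] [IsGalois F E] (hfin : Module.finrank F E = p)
    (hC : (powMonoidHom p : Fˣ →* Fˣ).range.index ≠ 0) {Z : Subgroup (K ≃ₐ[E] K)} (hZ : Dz p Z) :
    ∃ Z' : Subgroup (K ≃ₐ[F] K), Dz p Z' ∧ Z.map (resS F E K) ≤ Z' := by
  rcases hZ with ⟨W, rfl, hW⟩ | ⟨h2, τ, hτ, rfl⟩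
  · refine ⟨Dec F W, Or.inl ⟨W, rfl, ?_⟩, ?_⟩
    · intro ζ hζ
      have h1 := hStar p F E ζ hζ hfin hC (W.comap (algebraMap E K))
        (hW _ (hζ.map_of_injective (algebraMap F E).injective))
      rwa [ValuationSubring.comap_comap, ← IsScalarTower.algebraMap_eq F E K] at h1
    · rintro _ ⟨σ, hσ, rfl⟩
      rw [SetLike.mem_coe, mem_Dec] at hσ
      rw [mem_Dec]
      exact hσ
  · refine ⟨Subgroup.zpowers (resS F E K τ), Or.inr ⟨h2, _, ⟨?_, ?_⟩, rfl⟩, ?_⟩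
    · rw [← map_mul, hτ.1, map_one]
    · intro h
      exact hτ.2 (resS_inj (by rw [h, map_one]))
    · rw [MonoidHom.map_zpowers]

/-- the local-global principle for a covering family -/
theorem lg_cover (hStar : S_STARA) (hFIN : S_FIN) (hUP : S_PCLUP) (hCov : S_COVER)
    (hXF : S_XF) (hN : S_NORMCUP) {p : ℕ} [hp : Fact p.Prime] {F K : Type} [Field F] [Field K]
    [Algebra F K] (hζ : ∃ ζ : F, IsPrimitiveRoot ζ p) (hP : PCl p F K)
    (hC : (powMonoidHom p : Fˣ →* Fˣ).range.index ≠ 0) {I : Type}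
    (Z : I → Subgroup (K ≃ₐ[F] K))
    (hcov : ∀ Z' : Subgroup (K ≃ₐ[F] K), Dz p Z' →
        ∃ (i : I) (g : K ≃ₐ[F] K), ∀ σ ∈ Z', g⁻¹ * σ * g ∈ Z i) : LG p Z := by
  refine Pool.Agent.Helper59.EA.lg_of_cover Z (Dz p) ?_ hcov
  refine t_LG hUP p K (fun F _ => (powMonoidHom p : Fˣ →* Fˣ).range.index ≠ 0)
    (fun F _ _ Z => Dz p Z) ?_ ?_ ?_ F hζ hP hC
  · intro F E _ _ _ _ _ hζ hfin hC
    exact hFIN p F E hζ hfin hC
  · intro F E _ _ _ _ _ _ _ _ _ _ hfin hC Z hZ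
    exact dz_down hStar hfin hC hZ
  · intro F _ _ ζ hζ hP hC a b hab
    obtain ⟨I, hI, T, Z, hF, -⟩ := hCov p F K ζ hζ hP hC
    exact (hN p F K ζ hζ hP a b).1
      (hXF p F K ζ hζ hP I T Z hF.orth hF.good a b fun i => hab _ (hF.dz i))

/-- **The frozen statement S17141 from the modules.** -/
theorem final (hStar : S_STARA) (hFIN : S_FIN) (hFG : S_FG) (hUP : S_PCLUP) (hCov : S_COVER)
    (hXF : S_XF) (hN : S_NORMCUP) :
    ∀ (p : ℕ) [Fact p.Prime] (F : Type) [Field F],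
    (∃ ζ : F, IsPrimitiveRoot ζ p) →
    ∀ K : IntermediateField F (AlgebraicClosure F),
      K = sSup {L : IntermediateField F (AlgebraicClosure F) |
        FiniteDimensional F L ∧ IsGalois F L ∧ ∃ k : ℕ, Module.finrank F L = p ^ k} →
      (∃ S : Finset (↥K ≃ₐ[F] ↥K),
        Dense ((Subgroup.closure (S : Set (↥K ≃ₐ[F] ↥K)) : Set (↥K ≃ₐ[F] ↥K)))) →
      ∃ (n : ℕ) (H : Fin n → Subgroup (↥K ≃ₐ[F] ↥K)),
        (∀ i, IsClosed (H i : Set (↥K ≃ₐ[F] ↥K))) ∧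
        (∀ (P : Type) [Group P] [Finite P], (∃ k : ℕ, Nat.card P = p ^ k) →
          ∀ φ : (i : Fin n) → (H i →* P), (∀ i, IsOpen ((φ i).ker : Set (H i))) →
            ∃! ψ : (↥K ≃ₐ[F] ↥K) →* P,
              IsOpen (ψ.ker : Set (↥K ≃ₐ[F] ↥K)) ∧
              ∀ i, ∀ x : H i, ψ (x : ↥K ≃ₐ[F] ↥K) = φ i x) ∧
        (∀ i,
          Nonempty (H i ≃ₜ* Multiplicative (PadicInt p)) ∨
          (∃ (Γ : Type) (_ : LinearOrderedCommGroupWithZero Γ) (w : Valuation (↥K) Γ),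
            (∀ σ : ↥K ≃ₐ[F] ↥K, σ ∈ H i ↔ ∀ x : ↥K, (w (σ x) ≤ 1 ↔ w x ≤ 1)) ∧
            ∃ σ ∈ H i, σ ≠ 1 ∧ ∀ x : ↥K, w x ≤ 1 → w (σ x - x) < 1) ∨
          (p = 2 ∧ Nat.card (H i) = 2)) := by
  intro p hp F _ hζ' K hK hfg
  obtain ⟨ζ, hζ⟩ := hζ'
  have hP : PCl p F K := Pool.Agent.Helper59.EA.pcl_of_max hp.out ⟨ζ, hζ⟩ hK
  have hgal : IsGalois F K := hP.gal
  have hC := hFG p F K ⟨ζ, hζ⟩ hP hfg
  obtain ⟨I, hI, T, Z, hF, hcov⟩ := hCov p F K ζ hζ hP hC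
  have hroot := hP.root
  refine Pool.Agent.Helper59.EA.conclusion hζ K hK hfg Z T ?_ ?_ ?_ hF.orth.onto ?_ ?_
  · intro i
    rcases hF.dz i with ⟨W, hW, -⟩ | ⟨-, τ, hτ, hW⟩
    · rw [hW]
      exact Pool.Agent.Helper59.EA.dec_closed W
    · rw [hW]
      exact Pool.Agent.Helper59.EA.inv_closed hτ.1
  · intro i
    exact hF.gen i
  · intro i t ht
    obtain ⟨α, hα⟩ := hroot (algebraMap F K (t : F))
    exact ⟨α, fun σ hσ => ((hF.good i).mem t).1 ht α hα σ hσ, hα⟩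
  · exact lg_cover hStar hFIN hUP hCov hXF hN ⟨ζ, hζ⟩ hP hC Z hcov
  · intro i
    rcases hF.dz i with ⟨W, hW, hpl⟩ | ⟨h2, τ, hτ, hW⟩
    · left
      rw [hW]
      have h1 := hpl ζ hζ
      exact Pool.Agent.Helper59.EA.kind_dec hζ hP (h1.1.top hp.out hζ)
        (Pool.Agent.Helper59.EA.nu_of_pl hp.out h1.1)
    · right
      refine ⟨h2, ?_⟩
      rw [hW]
      exact Pool.Agent.Helper59.EA.inv_card hτ.1 hτ.2

end Pool.Agent.Helper83.ET
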