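import Pool.Agent.Helper83.ET.LG

set_option autoImplicit false

/-! Conjugation invariance of the local condition for cocycles. -/

namespace Pool.Agent.Helper83.ET

open Pool.Agent.ETC
open Pool.Agent.Helper59.EA (IsCoc CobOn Cob ProP)

section

variable {G : Type} [Group G] [TopologicalSpace G] [IsTopologicalGroup G] {p : ℕ}

/-- conjugation changes a cocycle by a coboundary -/
lemma coc_conj {N : Subgroup G} {c : G → G → ZMod p} (hc : IsCoc p N c) (g x y : G) :
    c (g * x * g⁻¹) (g * y * g⁻¹) = c x y - ((c g x - c (g * x * g⁻¹) g) +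
      (c g y - c (g * y * g⁻¹) g) - (c g (x * y) - c (g * (x * y) * g⁻¹) g)) := by
  have h1 := hc.1 g x y
  have h2 := hc.1 (g * x * g⁻¹) g y
  have h3 := hc.1 (g * x * g⁻¹) (g * y * g⁻¹) g
  have e1 : g * x * g⁻¹ * g = g * x := by group
  have e2 : g * y * g⁻¹ * g = g * y := by group
  have e3 : g * x * g⁻¹ * (g * y * g⁻¹) = g * (x * y) * g⁻¹ := by group
  rw [e1] at h2
  rw [e2, e3] at h3
  linear_combination h3 - h2 + h1

/-- the local condition is invariant under conjugation -/
theorem cobOn_conj {N : Subgroup G} (ho : IsOpen (N : Set G)) {c : G → G → ZMod p}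
    (hc : IsCoc p N c) {Z Z' : Subgroup G} (g : G) (hZ : ∀ σ ∈ Z', g⁻¹ * σ * g ∈ Z)
    (h : CobOn p Z c) : CobOn p Z' c := by
  obtain ⟨ρ, h1, h2⟩ := h
  let r : Z' → Z := fun x => ⟨g⁻¹ * x * g, hZ x x.2⟩
  have hr : Continuous r := by
    refine Continuous.subtype_mk ?_ _
    exact (continuous_const.mul continuous_subtype_val).mul continuous_const
  have hcl := coc_lc ho hc
  refine ⟨fun x => ρ (r x) - (c g (r x) - c x g), ?_, ?_⟩
  · have h3 : IsLocallyConstant (fun x : Z' => ρ (r x)) := h1.comp_continuous hr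
    have h4 : IsLocallyConstant (fun x : Z' => c g (r x)) :=
      hcl.comp_continuous (f := fun x : Z' => (g, ((r x : Z) : G)))
        (continuous_const.prodMk (continuous_subtype_val.comp hr))
    have h5 : IsLocallyConstant (fun x : Z' => c (x : G) g) :=
      hcl.comp_continuous (f := fun x : Z' => ((x : G), g))
        (continuous_subtype_val.prodMk continuous_const)
    exact h3.sub (h4.sub h5)
  · intro x y
    have h3 := h2 (r x) (r y)
    have h4 : r x * r y = r (x * y) := by
      ext
      change g⁻¹ * x * g * (g⁻¹ * y * g) = g⁻¹ * ((x : G) * y) * g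
      group
    rw [h4] at h3
    have h5 := coc_conj hc g ((r x : Z) : G) ((r y : Z) : G)
    have e : ∀ z : Z', g * ((r z : Z) : G) * g⁻¹ = z := by
      intro z
      change g * (g⁻¹ * z * g) * g⁻¹ = z
      group
    have e2 : ((r x : Z) : G) * ((r y : Z) : G) = ((r (x * y) : Z) : G) := by
      rw [← h4]
      rfl
    rw [e2, e x, e y, e (x * y)] at h5
    change c x y = ρ (r x) - (c g (r x) - c x g) + (ρ (r y) - (c g (r y) - c y g)) -
      (ρ (r (x * y)) - (c g (r (x * y)) - c ((x * y : Z') : G) g))
    linear_combination h5 + h3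

end

end Pool.Agent.Helper83.ET
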