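import Pool.Agent.Helper83.ET.ResS
import Pool.Agent.Helper95.EC.Chi

set_option autoImplicit false

/-! The fixed field of an open normal subgroup. -/

namespace Pool.Agent.Helper83.ET

open Pool.Agent.ETC
open Pool.Agent.Helper59.EA (IsCoc CobOn Cob ProP)
open Pool.Agent.Helper95.EC

section

variable {F K : Type} [Field F] [Field K] [Algebra F K]

/-- the fixed field of an open normal subgroup -/
lemma fixed_props [IsGalois F K] (N : Subgroup (K ≃ₐ[F] K)) (hn : N.Normal)
    (ho : IsOpen (N : Set (K ≃ₐ[F] K))) :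
    (IntermediateField.fixedField N).fixingSubgroup = N ∧
    FiniteDimensional F (IntermediateField.fixedField N) ∧
      IsGalois F (IntermediateField.fixedField N) ∧
      Module.finrank F (IntermediateField.fixedField N) = N.index := by
  have hc : IsClosed (N : Set (K ≃ₐ[F] K)) := OpenSubgroup.isClosed ⟨N, ho⟩
  have h1 : (IntermediateField.fixedField N).fixingSubgroup = N :=
    InfiniteGalois.fixingSubgroup_fixedField ⟨N, hc⟩
  have h2 : FiniteDimensional F (IntermediateField.fixedField N) := by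
    rw [← InfiniteGalois.isOpen_iff_finite]
    have : (IntermediateField.fixedField N).fixingSubgroup.carrier = (N : Set (K ≃ₐ[F] K)) := by
      rw [h1]
      rfl
    rw [this]
    exact ho
  have h3 : IsGalois F (IntermediateField.fixedField N) := by
    rw [← InfiniteGalois.normal_iff_isGalois, h1]
    exact hn
  refine ⟨h1, h2, h3, ?_⟩
  have : (⟨N, hc⟩ : ClosedSubgroup (K ≃ₐ[F] K)).Normal := hn
  rw [← IsGalois.card_aut_eq_finrank, Subgroup.index]
  exact (Nat.card_congr (InfiniteGalois.normalAutEquivQuotient ⟨N, hc⟩).toEquiv).symm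

lemma proP {p : ℕ} (h : PCl p F K) : ProP p (K ≃ₐ[F] K) := by
  intro N hn ho
  have := h.gal
  obtain ⟨-, h2, h3, h4⟩ := fixed_props N hn ho
  rw [← h4]
  exact h.pgp _ h2 h3

/-- an open proper normal subgroup is in the kernel of a nonzero Kummer character -/
lemma exists_a {p : ℕ} [Fact p.Prime] (h : PCl p F K) {ζ : F} (hζ : IsPrimitiveRoot ζ p)
    (N : Subgroup (K ≃ₐ[F] K)) (hn : N.Normal) (ho : IsOpen (N : Set (K ≃ₐ[F] K)))
    (hN : N ≠ ⊤) : ∃ a : Fˣ, (∀ g ∈ N, chi p ζ a g = 0) ∧ ∃ σ : K ≃ₐ[F] K, chi p ζ a σ = 1 := by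
  have := h.gal
  obtain ⟨k, hk⟩ := proP h N hn ho
  have hfin : Finite ((K ≃ₐ[F] K) ⧸ N) := by
    apply Nat.finite_of_card_ne_zero
    change N.index ≠ 0
    rw [hk]
    exact pow_ne_zero _ (Fact.out : p.Prime).ne_zero
  have hQ : IsPGroup p ((K ≃ₐ[F] K) ⧸ N) := IsPGroup.of_card (n := k) hk
  have hbt : (⊥ : Subgroup ((K ≃ₐ[F] K) ⧸ N)) ≠ ⊤ := by
    intro e
    apply hN
    rw [eq_top_iff]
    intro g _
    have h1 : (QuotientGroup.mk g : (K ≃ₐ[F] K) ⧸ N) ∈ (⊥ : Subgroup ((K ≃ₐ[F] K) ⧸ N)) := by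
      rw [e]
      exact Subgroup.mem_top _
    rw [Subgroup.mem_bot] at h1
    exact (QuotientGroup.eq_one_iff g).1 h1
  obtain ⟨χ, hχ1, -⟩ := Pool.Agent.Helper59.EA.exists_char hQ ⊥ hbt
  let χ' : (K ≃ₐ[F] K) →* Multiplicative (ZMod p) := χ.comp (QuotientGroup.mk' N)
  have hker : N ≤ χ'.ker := by
    intro g hg
    rw [MonoidHom.mem_ker]
    change χ (QuotientGroup.mk g) = 1
    rw [(QuotientGroup.eq_one_iff g).2 hg, map_one]
  have hlc : IsLocallyConstant (χ' : (K ≃ₐ[F] K) → Multiplicative (ZMod p)) :=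
    Pool.Agent.Helper59.EA.isLocallyConstant_of_ker χ' (Subgroup.isOpen_mono hker ho)
  obtain ⟨a, ha⟩ := chi_surj h hζ (fun g => Multiplicative.toAdd (χ' g)) (by
    intro g k
    rw [map_mul, toAdd_mul]) (hlc.comp _)
  refine ⟨a, ?_, ?_⟩
  · intro g hg
    rw [ha]
    have := MonoidHom.mem_ker.1 (hker hg)
    rw [this, toAdd_one]
  · have h2 : ∃ σ : K ≃ₐ[F] K, χ' σ ≠ 1 := by
      by_contra hc
      push Not at hc
      apply hχ1
      refine MonoidHom.ext fun q => ?_
      obtain ⟨g, rfl⟩ := QuotientGroup.mk_surjective q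
      exact hc g
    obtain ⟨σ, hσ⟩ := h2
    obtain ⟨τ, -, hτ⟩ := exists_chi_one h hζ (a := a) (Subgroup.mem_top σ) (by
      rw [ha]
      intro e
      exact hσ (Multiplicative.toAdd.injective e))
    exact ⟨τ, hτ⟩

end

end Pool.Agent.Helper83.ET
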