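import Pool.Agent.ETC.Defs

set_option autoImplicit false

/-! A bilinear form on the classes which kills the Steinberg relations, for a place with
residue characteristic different from `p`. -/

namespace Pool.Agent.Helper83.ET

open scoped TensorProduct
open Pool.Agent.ETC
open Pool.Agent.Helper58.ET (St Ns)

section form

variable {F : Type} [Field F]

/-- the bilinear form `h(x) g(y) - h(y) g(x) + g(x) g(y) h(-1)` -/
def form (p : ℕ) {V : Type} [AddCommGroup V] (h g : V →+ ZMod p) (n : V) :
    V →ₗ[ℤ] V →ₗ[ℤ] ZMod p :=
  LinearMap.mk₂ ℤ (fun x y => h x * g y - h y * g x + g x * g y * h n)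
    (by intro a b c; simp only [map_add]; ring)
    (by intro c a b; simp only [map_zsmul, zsmul_eq_mul]; ring)
    (by intro a b c; simp only [map_add]; ring)
    (by intro c a b; simp only [map_zsmul, zsmul_eq_mul]; ring)

lemma form_apply (p : ℕ) {V : Type} [AddCommGroup V] (h g : V →+ ZMod p) (n x y : V) :
    form p h g n x y = h x * g y - h y * g x + g x * g y * h n := rfl

lemma zmod_two (b : ZMod 2) : b * b - b = 0 := by
  revert b
  decide

/-- the value of `h` on the class of `-1` -/
lemma two_neg {p : ℕ} {T : Subgroup Fˣ} (h : Additive (Cl T) →+ ZMod p) :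
    h (Additive.ofMul (cl T (-1))) + h (Additive.ofMul (cl T (-1))) = 0 := by
  rw [← map_add, ← ofMul_mul, ← map_mul]
  have : (-1 : Fˣ) * -1 = 1 := by ext; simp
  rw [this, map_one, ofMul_one, map_zero]

lemma cl_neg {T : Subgroup Fˣ} (u : Fˣ) : cl T (-u) = cl T (-1) * cl T u := by
  rw [← map_mul]
  congr 1
  ext
  simp

/-- the form kills the Steinberg relations -/
lemma form_st {p : ℕ} [Fact p.Prime] {l : Fˣ} {R : ValuationSubring F}
    (hl : R.valuation (l : F) = 1) (h g : Additive (Cl (TR p l R)) →+ ZMod p)
    (hg : ∀ u : Fˣ, R.valuation (u : F) = 1 → g (Additive.ofMul (cl (TR p l R) u)) = 0)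
    {z : Additive (Cl (TR p l R)) ⊗[ℤ] Additive (Cl (TR p l R))} (hz : z ∈ St (cl (TR p l R))) :
    TensorProduct.lift (form p h g (Additive.ofMul (cl (TR p l R) (-1)))) z = 0 := by
  have hun : ∀ u : Fˣ, R.valuation ((u : F) - 1) < 1 → cl (TR p l R) u = 1 := by
    intro u hu
    rw [cl_eq_one]
    apply Subgroup.mem_sup_right
    rw [mem_Un, hl, one_pow]
    exact ⟨hu, hu⟩
  unfold St at hz
  induction hz using AddSubgroup.closure_induction with
  | mem z hz =>
    obtain ⟨u, v, huv, rfl⟩ := hz
    rw [TensorProduct.lift.tmul, form_apply]
    by_cases h1 : R.valuation (u : F) < 1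
    · have e : cl (TR p l R) v = 1 := by
        apply hun
        have : (v : F) - 1 = -u := by linear_combination huv
        rw [this, Valuation.map_neg]
        exact h1
      rw [e, ofMul_one, map_zero, map_zero]
      ring
    by_cases h2 : R.valuation (v : F) < 1
    · have e : cl (TR p l R) u = 1 := by
        apply hun
        have : (u : F) - 1 = -v := by linear_combination huv
        rw [this, Valuation.map_neg]
        exact h2
      rw [e, ofMul_one, map_zero, map_zero]
      ring
    by_cases h3 : R.valuation (u : F) = 1
    · by_cases h4 : R.valuation (v : F) = 1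
      · rw [hg u h3, hg v h4]
        ring
      · exfalso
        have h5 : 1 < R.valuation (v : F) := lt_of_le_of_ne (not_lt.1 h2) (Ne.symm h4)
        have h6 : R.valuation (v : F) ≤ 1 := by
          have : (v : F) = 1 - u := by linear_combination huv
          rw [this]
          refine (R.valuation.map_sub 1 (u : F)).trans ?_
          rw [map_one, h3, max_self]
        exact absurd h6 (not_le.2 h5)
    · have h5 : 1 < R.valuation (u : F) := lt_of_le_of_ne (not_lt.1 h1) (Ne.symm h3)
      have e : cl (TR p l R) v = cl (TR p l R) (-u) := by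
        have h6 : cl (TR p l R) (v / -u) = 1 := by
          apply hun
          have hu0 : (u : F) ≠ 0 := u.ne_zero
          have : ((v / -u : Fˣ) : F) - 1 = -(u : F)⁻¹ := by
            rw [Units.val_div_eq_div_val, Units.val_neg]
            have : (v : F) = 1 - u := by linear_combination huv
            rw [this]
            field_simp
            ring
          rw [this, Valuation.map_neg, map_inv₀]
          exact inv_lt_one_of_one_lt₀ h5
        rwa [map_div, div_eq_one] at h6
      rw [e, cl_neg, ofMul_mul, map_add, map_add,
        hg (-1) (by rw [Units.val_neg, Units.val_one, Valuation.map_neg, map_one]), zero_add]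
      have h7 := two_neg h
      generalize h (Additive.ofMul (cl (TR p l R) u)) = a
      generalize hb : g (Additive.ofMul (cl (TR p l R) u)) = b
      generalize h (Additive.ofMul (cl (TR p l R) (-1))) = n at h7 ⊢
      have h8 : n * (b * b - b) = 0 := by
        rcases (Fact.out : p.Prime).eq_two_or_odd' with rfl | hodd
        · rw [zmod_two b, mul_zero]
        · have h9 : n = 0 := by
            have h2 : (2 : ZMod p) ≠ 0 := by
              intro h
              have h10 : ((2 : ℕ) : ZMod p) = 0 := by exact_mod_cast h
              rw [ZMod.natCast_eq_zero_iff] at h10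
              have := (Nat.prime_dvd_prime_iff_eq Fact.out Nat.prime_two).1 h10
              rw [this] at hodd
              exact absurd hodd (by decide)
            have h11 : 2 * n = 0 := by linear_combination h7
            exact (mul_eq_zero.1 h11).resolve_left h2
          rw [h9, zero_mul]
      linear_combination h8
  | zero => exact map_zero _
  | add a b _ _ ha hb => rw [map_add, ha, hb, add_zero]
  | neg a _ ha => rw [map_neg, ha, neg_zero]

/-- the bilinear relation of a trivial symbol -/
lemma form_sy {p : ℕ} [Fact p.Prime] {l : Fˣ} {R : ValuationSubring F}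
    (hl : R.valuation (l : F) = 1) (h g : Additive (Cl (TR p l R)) →+ ZMod p)
    (hg : ∀ u : Fˣ, R.valuation (u : F) = 1 → g (Additive.ofMul (cl (TR p l R) u)) = 0)
    {x y : Fˣ} (hxy : Sy (TR p l R) x y) :
    h (Additive.ofMul (cl (TR p l R) x)) * g (Additive.ofMul (cl (TR p l R) y)) -
      h (Additive.ofMul (cl (TR p l R) y)) * g (Additive.ofMul (cl (TR p l R) x)) +
      g (Additive.ofMul (cl (TR p l R) x)) * g (Additive.ofMul (cl (TR p l R) y)) *
        h (Additive.ofMul (cl (TR p l R) (-1))) = 0 := by
  have h1 := form_st hl h g hg hxy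
  rwa [TensorProduct.lift.tmul, form_apply] at h1

end form

end Pool.Agent.Helper83.ET
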