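import Pool.Agent.Helper83.ET.Max

set_option autoImplicit false

/-! Values of the elements of a Kummer extension of degree `p`: the inert case. -/

namespace Pool.Agent.Helper83.ET

open Finset

section inert

variable {F E : Type} [Field F] [Field E] [Algebra F E]

lemma mem_iff (R' : ValuationSubring E) (x : E) : x ∈ R' ↔ R'.valuation x ≤ 1 :=
  (R'.valuation_le_one_iff x).symm

/-- the inert case: the values are values from `F` -/
lemma inert_val1 {p : ℕ} (hp : p.Prime) (R' : ValuationSubring E) {a : F} {α : E}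
    (hα : α ^ p = algebraMap F E a) (hva : R'.valuation (algebraMap F E a) = 1)
    (hin : ∀ f : F, ¬ R'.valuation (algebraMap F E (f ^ p - a)) < 1) (c : ℕ → F)
    (hc : ∀ j ∈ range p, R'.valuation (algebraMap F E (c j)) ≤ 1) {i : ℕ} (hi : i ∈ range p)
    (hci : c i = 1) :
    R'.valuation (∑ j ∈ range p, algebraMap F E (c j) * α ^ j) = 1 := by
  classical
  have hvα : R'.valuation α = 1 := by
    have h1 : R'.valuation α ^ p = 1 := by rw [← map_pow, hα, hva]
    exact (pow_eq_one_iff_of_nonneg zero_le hp.ne_zero).1 h1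
  have hle : R'.valuation (∑ j ∈ range p, algebraMap F E (c j) * α ^ j) ≤ 1 := by
    apply R'.valuation.map_sum_le
    intro j hj
    rw [map_mul, map_pow, hvα, one_pow, mul_one]
    exact hc j hj
  refine le_antisymm hle (not_lt.1 fun hlt => ?_)
  -- the residue fields
  obtain ⟨R, hR⟩ : ∃ R : ValuationSubring F, R = R'.comap (algebraMap F E) := ⟨_, rfl⟩
  have hRm : ∀ x : F, x ∈ R ↔ R'.valuation (algebraMap F E x) ≤ 1 := by
    intro x
    rw [hR, ValuationSubring.mem_comap, mem_iff]
  let g : R →+* R' := (algebraMap F E).restrict R R' (fun x hx => by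
    rw [mem_iff]
    exact (hRm x).1 hx)
  have hg : ∀ x : R, ((g x : R') : E) = algebraMap F E (x : F) := fun x => rfl
  have hunit : ∀ x : R', IsUnit x ↔ R'.valuation (x : E) = 1 := fun x =>
    R'.valuation_eq_one_iff x
  have hgl : IsLocalHom g := by
    constructor
    intro x hx
    rw [hunit, hg] at hx
    have hx0 : (x : F) ≠ 0 := by
      intro e
      rw [e, map_zero, map_zero] at hx
      exact zero_ne_one hx
    have h1 : (x : F)⁻¹ ∈ R := by
      rw [hRm, map_inv₀, map_inv₀, hx, inv_one]
    refine IsUnit.of_mul_eq_one ⟨(x : F)⁻¹, h1⟩ ?_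
    ext
    exact mul_inv_cancel₀ hx0
  let κ := IsLocalRing.ResidueField.map g
  have haR : a ∈ R := by rw [hRm, hva]
  have hαR : α ∈ R' := by rw [mem_iff, hvα]
  let a' : R := ⟨a, haR⟩
  let α' : R' := ⟨α, hαR⟩
  -- `X ^ p - a` is irreducible
  have hirr : Irreducible (Polynomial.X ^ p - Polynomial.C (IsLocalRing.residue R a') :
      Polynomial (IsLocalRing.ResidueField R)) := by
    apply X_pow_sub_C_irreducible_of_prime hp
    intro b hb
    obtain ⟨f, rfl⟩ := IsLocalRing.residue_surjective b
    rw [← map_pow, ← sub_eq_zero, ← map_sub, IsLocalRing.residue_eq_zero_iff] at hb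
    apply hin (f : F)
    have h1 : ¬ IsUnit (g (f ^ p - a')) := by
      intro h2
      exact (IsLocalRing.mem_maximalIdeal _).1 hb (isUnit_of_map_unit g _ h2)
    rw [hunit, hg] at h1
    have h3 : R'.valuation (algebraMap F E ((f : F) ^ p - a)) ≤ 1 :=
      (hRm _).1 (f ^ p - a').2
    exact lt_of_le_of_ne h3 h1
  -- the polynomial
  have hcR : ∀ j : ℕ, j ∈ range p → c j ∈ R := fun j hj => (hRm _).2 (hc j hj)
  obtain ⟨d, hd⟩ : ∃ d : ℕ → R, ∀ j ∈ range p, (d j : F) = c j := by
    refine ⟨fun j => if h : j ∈ range p then ⟨c j, hcR j h⟩ else 0, fun j hj => ?_⟩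
    simp only [hj, dif_pos]
  let P : Polynomial (IsLocalRing.ResidueField R) :=
    ∑ j ∈ range p, Polynomial.C (IsLocalRing.residue R (d j)) * Polynomial.X ^ j
  have hPc : ∀ k : ℕ, k ∈ range p → P.coeff k = IsLocalRing.residue R (d k) := by
    intro k hk
    simp only [P, Polynomial.finsetSum_coeff, Polynomial.coeff_C_mul, Polynomial.coeff_X_pow]
    rw [Finset.sum_eq_single k]
    · simp
    · intro j _ hjk
      simp [Ne.symm hjk]
    · intro h
      exact absurd hk h
  have hP0 : P ≠ 0 := by
    intro e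
    have h1 := hPc i hi
    rw [e, Polynomial.coeff_zero] at h1
    have h2 : d i = 1 := by
      ext
      rw [hd i hi, hci]
      rfl
    rw [h2, map_one] at h1
    exact zero_ne_one h1
  have hPdeg : P.degree < (Polynomial.X ^ p - Polynomial.C (IsLocalRing.residue R a') :
      Polynomial (IsLocalRing.ResidueField R)).degree := by
    rw [Polynomial.degree_X_pow_sub_C hp.pos]
    rw [Polynomial.degree_lt_iff_coeff_zero]
    intro m hm
    simp only [P, Polynomial.finsetSum_coeff, Polynomial.coeff_C_mul, Polynomial.coeff_X_pow]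
    apply Finset.sum_eq_zero
    intro j hj
    have := mem_range.1 hj
    have hne : m ≠ j := by omega
    simp [hne]
  have hcop : IsCoprime P (Polynomial.X ^ p - Polynomial.C (IsLocalRing.residue R a')) := by
    rw [isCoprime_comm]
    refine (hirr.coprime_iff_not_dvd).2 fun h => ?_
    exact absurd (Polynomial.degree_le_of_dvd h hP0) (not_le.2 hPdeg)
  obtain ⟨U, W, hUW⟩ := hcop
  -- evaluation at the residue of `α`
  have hev := congrArg (Polynomial.eval₂ κ (IsLocalRing.residue R' α')) hUW
  rw [Polynomial.eval₂_add, Polynomial.eval₂_mul, Polynomial.eval₂_mul, Polynomial.eval₂_one] at hev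
  have h1 : Polynomial.eval₂ κ (IsLocalRing.residue R' α')
      (Polynomial.X ^ p - Polynomial.C (IsLocalRing.residue R a')) = 0 := by
    rw [Polynomial.eval₂_sub, Polynomial.eval₂_pow, Polynomial.eval₂_X, Polynomial.eval₂_C]
    rw [IsLocalRing.ResidueField.map_residue, ← map_pow, ← map_sub]
    have : α' ^ p - g a' = 0 := by
      ext
      change α ^ p - algebraMap F E a = 0
      rw [hα, sub_self]
    rw [this, map_zero]
  have h2 : Polynomial.eval₂ κ (IsLocalRing.residue R' α') P = 0 := by
    simp only [P, Polynomial.eval₂_finsetSum, Polynomial.eval₂_mul, Polynomial.eval₂_C,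
      Polynomial.eval₂_pow, Polynomial.eval₂_X]
    have e1 : ∀ j ∈ range p, κ (IsLocalRing.residue R (d j)) * IsLocalRing.residue R' α' ^ j =
        IsLocalRing.residue R' (g (d j) * α' ^ j) := by
      intro j _
      rw [map_mul, map_pow]
      congr 1
    rw [Finset.sum_congr rfl e1, ← map_sum, IsLocalRing.residue_eq_zero_iff,
      IsLocalRing.mem_maximalIdeal, mem_nonunits_iff, hunit]
    have e2 : ((∑ j ∈ range p, g (d j) * α' ^ j : R') : E) =
        ∑ j ∈ range p, algebraMap F E (c j) * α ^ j := by
      push_cast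
      refine Finset.sum_congr rfl fun j hj => ?_
      rw [hg, hd j hj]
    rw [e2]
    exact ne_of_lt hlt
  rw [h1, h2, mul_zero, mul_zero, add_zero] at hev
  exact zero_ne_one hev

/-- the inert case: the values are values from `F` -/
lemma inert_val {p : ℕ} (hp : p.Prime) (R' : ValuationSubring E) {a : F} {α : E}
    (hα : α ^ p = algebraMap F E a) (hva : R'.valuation (algebraMap F E a) = 1)
    (hin : ∀ f : F, ¬ R'.valuation (algebraMap F E (f ^ p - a)) < 1) (c : ℕ → F)
    (hy : ∑ j ∈ range p, algebraMap F E (c j) * α ^ j ≠ 0) :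
    ∃ i ∈ range p, c i ≠ 0 ∧ R'.valuation (∑ j ∈ range p, algebraMap F E (c j) * α ^ j) =
      R'.valuation (algebraMap F E (c i)) := by
  have hinj : Function.Injective (algebraMap F E) := (algebraMap F E).injective
  obtain ⟨i, hi, hmax⟩ := (range p).exists_max_image
    (fun i => R'.valuation (algebraMap F E (c i))) ⟨0, mem_range.2 hp.pos⟩
  have hci : c i ≠ 0 := by
    intro e
    apply hy
    apply Finset.sum_eq_zero
    intro j hj
    have h1 := hmax j hj
    rw [e, map_zero, map_zero] at h1
    have h2 := (R'.valuation.zero_iff).1 (le_zero_iff.1 h1)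
    rw [h2, zero_mul]
  have hvi : R'.valuation (algebraMap F E (c i)) ≠ 0 := by
    rw [Valuation.ne_zero_iff]
    exact (map_ne_zero_iff _ hinj).2 hci
  refine ⟨i, hi, hci, ?_⟩
  have h1 := inert_val1 hp R' hα hva hin (fun j => c j / c i) (by
    intro j hj
    rw [map_div₀, map_div₀]
    exact div_le_one_of_le₀ (hmax j hj) zero_le) hi (div_self hci)
  have e : ∑ j ∈ range p, algebraMap F E (c j) * α ^ j =
      algebraMap F E (c i) * ∑ j ∈ range p, algebraMap F E (c j / c i) * α ^ j := by
    rw [Finset.mul_sum]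
    refine Finset.sum_congr rfl fun j _ => ?_
    rw [← mul_assoc, ← map_mul, mul_div_cancel₀ _ hci]
  rw [e, map_mul, h1, mul_one]

end inert

end Pool.Agent.Helper83.ET
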