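import Mathlib

set_option autoImplicit false

/-! Values of the elements of a Kummer extension of degree `p`: the ramified and the inert case. -/

namespace Pool.Agent.Helper83.ET

open Finset

section ram

variable {F E : Type} [Field F] [Field E] [Algebra F E] {Γ : Type}
  [LinearOrderedCommGroupWithZero Γ]

/-- a dominant term -/
lemma exists_dom (v : Valuation E Γ) {ι : Type} [DecidableEq ι] (s : Finset ι) (f : ι → E)
    (hd : ∀ i ∈ s, ∀ j ∈ s, i ≠ j → f i ≠ 0 → v (f i) ≠ v (f j)) (h0 : ∃ i ∈ s, f i ≠ 0) :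
    ∃ i ∈ s, f i ≠ 0 ∧ v (∑ j ∈ s, f j - f i) < v (f i) := by
  have hs : s.Nonempty := by
    obtain ⟨i, hi, -⟩ := h0
    exact ⟨i, hi⟩
  obtain ⟨i, hi, hmax⟩ := s.exists_max_image (fun i => v (f i)) hs
  have hfi : f i ≠ 0 := by
    obtain ⟨j, hj, hj0⟩ := h0
    intro e
    have h1 := hmax j hj
    rw [e, map_zero] at h1
    exact hj0 ((v.zero_iff).1 (le_zero_iff.1 h1))
  refine ⟨i, hi, hfi, ?_⟩
  have e : ∑ j ∈ s, f j - f i = ∑ j ∈ s.erase i, f j := by
    rw [← Finset.add_sum_erase s f hi, add_sub_cancel_left]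
  rw [e]
  have hvi : v (f i) ≠ 0 := v.ne_zero_iff.2 hfi
  refine v.map_sum_lt hvi ?_
  intro j hj
  have hji := Finset.ne_of_mem_erase hj
  have hjs := Finset.mem_of_mem_erase hj
  exact lt_of_le_of_ne (hmax j hjs) fun e => hd i hi j hjs (Ne.symm hji) hfi e.symm

/-- a value whose `n`-th power is a `p`-th power of a value from `F`, `n` prime to `p` -/
lemma pow_coprime {p : ℕ} (hp : p.Prime) (v : Valuation E Γ) {a : F} (ha : a ≠ 0) {n : ℤ}
    (hn : ¬ (p : ℤ) ∣ n) {c : F} (hc : c ≠ 0)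
    (h : v (algebraMap F E a) ^ n = v (algebraMap F E c) ^ p) :
    ∃ f : F, f ≠ 0 ∧ v (algebraMap F E (a * f ^ p)) = 1 := by
  have hp' : Prime (p : ℤ) := Nat.prime_iff_prime_int.1 hp
  have hcop : IsCoprime (p : ℤ) n := (hp'.coprime_iff_not_dvd).2 hn
  obtain ⟨w, u, huw⟩ := hcop
  have hinj : Function.Injective (algebraMap F E) := (algebraMap F E).injective
  have hva : v (algebraMap F E a) ≠ 0 := by
    rw [v.ne_zero_iff]
    exact (map_ne_zero_iff _ hinj).2 ha
  have hvc : v (algebraMap F E c) ≠ 0 := by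
    rw [v.ne_zero_iff]
    exact (map_ne_zero_iff _ hinj).2 hc
  refine ⟨(c ^ u * a ^ w)⁻¹, inv_ne_zero (mul_ne_zero (zpow_ne_zero _ hc) (zpow_ne_zero _ ha)), ?_⟩
  have e1 : v (algebraMap F E a) = (v (algebraMap F E c) ^ u * v (algebraMap F E a) ^ w) ^ p := by
    calc v (algebraMap F E a) = v (algebraMap F E a) ^ (w * p + u * n) := by rw [huw, zpow_one]
      _ = (v (algebraMap F E a) ^ n) ^ u * (v (algebraMap F E a) ^ w) ^ p := by
          rw [zpow_add₀ hva, ← zpow_mul, zpow_mul, zpow_natCast, mul_comm, mul_comm n u]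
      _ = _ := by
          rw [h, mul_pow]
          congr 1
          rw [← zpow_natCast, ← zpow_natCast, ← zpow_mul, ← zpow_mul, mul_comm]
  rw [map_mul, map_mul, map_pow, map_inv₀, map_pow, map_inv₀, map_mul, map_zpow₀, map_zpow₀,
    map_mul, map_zpow₀, map_zpow₀]
  nth_rewrite 1 [e1]
  rw [inv_pow]
  exact mul_inv_cancel₀ (pow_ne_zero _ (mul_ne_zero (zpow_ne_zero _ hvc) (zpow_ne_zero _ hva)))

/-- the ramified case: there is a dominant term -/
lemma ram_dom {p : ℕ} (hp : p.Prime) (v : Valuation E Γ) {a : F} (ha : a ≠ 0) {α : E}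
    (hα : α ^ p = algebraMap F E a)
    (hram : ∀ f : F, f ≠ 0 → v (algebraMap F E (a * f ^ p)) ≠ 1) (c : ℕ → F)
    (hy : ∑ i ∈ range p, algebraMap F E (c i) * α ^ i ≠ 0) :
    ∃ i ∈ range p, c i ≠ 0 ∧
      v (∑ j ∈ range p, algebraMap F E (c j) * α ^ j - algebraMap F E (c i) * α ^ i) <
        v (algebraMap F E (c i) * α ^ i) := by
  have hinj : Function.Injective (algebraMap F E) := (algebraMap F E).injective
  have hα0 : α ≠ 0 := by
    rintro rfl
    rw [zero_pow hp.ne_zero] at hα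
    exact ha ((map_eq_zero_iff _ hinj).1 hα.symm)
  have hvα : v α ≠ 0 := v.ne_zero_iff.2 hα0
  obtain ⟨i, hi, h1, h2⟩ := exists_dom v (range p) (fun i => algebraMap F E (c i) * α ^ i) (by
    intro i hi j hj hij h1 h2
    have hci : c i ≠ 0 := by
      intro e
      rw [e, map_zero, zero_mul] at h1
      exact h1 rfl
    have hvi : v (algebraMap F E (c i)) ≠ 0 := by
      rw [v.ne_zero_iff]
      exact (map_ne_zero_iff _ hinj).2 hci
    have hcj : c j ≠ 0 := by
      intro e
      rw [e, map_zero, zero_mul, map_zero] at h2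
      exact h1 (v.zero_iff.1 h2)
    have hvj : v (algebraMap F E (c j)) ≠ 0 := by
      rw [v.ne_zero_iff]
      exact (map_ne_zero_iff _ hinj).2 hcj
    rw [map_mul, map_mul, map_pow, map_pow] at h2
    have h3 : v (algebraMap F E a) ^ ((i : ℤ) - j) = v (algebraMap F E (c j / c i)) ^ p := by
      rw [map_div₀, map_div₀, ← hα, map_pow, ← zpow_natCast, ← zpow_mul, div_pow,
        eq_div_iff (pow_ne_zero _ hvi)]
      have h4 : v α ^ ((i : ℤ) - j) * v (algebraMap F E (c i)) = v (algebraMap F E (c j)) := by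
        rw [zpow_sub₀ hvα, zpow_natCast, zpow_natCast, div_mul_eq_mul_div, mul_comm, h2,
          mul_div_assoc, div_self (pow_ne_zero _ hvα), mul_one]
      rw [← h4, mul_pow, ← zpow_natCast (v α ^ ((i : ℤ) - j)), ← zpow_mul, mul_comm (p : ℤ)]
    have h5 : ¬ (p : ℤ) ∣ (i : ℤ) - j := by
      intro hd
      have hi' := mem_range.1 hi
      have hj' := mem_range.1 hj
      apply hij
      have h6 := Int.eq_zero_of_abs_lt_dvd hd (by rw [abs_lt]; constructor <;> omega)
      omega
    obtain ⟨f, hf, hf1⟩ := pow_coprime hp v ha h5 (div_ne_zero hcj hci) h3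
    exact hram f hf hf1) (by
    by_contra hc
    push Not at hc
    exact hy (Finset.sum_eq_zero hc))
  refine ⟨i, hi, ?_, h2⟩
  intro e
  rw [e, map_zero, zero_mul] at h1
  exact h1 rfl

end ram

end Pool.Agent.Helper83.ET
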