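import Pool.Agent.Helper83.ET.Form

set_option autoImplicit false

/-! Functionals separate points; consequences for the symbols at a place. -/

namespace Pool.Agent.Helper83.ET

open scoped TensorProduct
open Pool.Agent.ETC
open Pool.Agent.Helper58.ET (St Ns)

lemma exists_functional' {p : ℕ} [Fact p.Prime] {M : Type} [AddCommGroup M] [Module (ZMod p) M]
    (W : AddSubgroup M) {x : M} (hx : x ∉ W) :
    ∃ h : M →+ ZMod p, (∀ w ∈ W, h w = 0) ∧ h x = 1 := by
  obtain ⟨f, hf, hf'⟩ := (AddSubgroup.toZModSubmodule p W).exists_le_ker_of_notMem (v := x) hx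
  refine ⟨((f x)⁻¹ • f).toAddMonoidHom, fun w hw => ?_, ?_⟩
  · have h1 : f w = 0 := hf' hw
    change (f x)⁻¹ • f w = 0
    rw [h1, smul_zero]
  · change (f x)⁻¹ • f x = 1
    rw [smul_eq_mul, inv_mul_cancel₀ hf]

lemma exists_functional {p : ℕ} [Fact p.Prime] {V : Type} [CommGroup V] (hV : ∀ x : V, x ^ p = 1)
    (W : Subgroup V) {x : V} (hx : x ∉ W) :
    ∃ h : Additive V →+ ZMod p, (∀ w ∈ W, h (Additive.ofMul w) = 0) ∧
      h (Additive.ofMul x) = 1 := by
  obtain ⟨h, h1, h2⟩ := @exists_functional' p _ (Additive V) _ (AddCommGroup.zmodModule (n := p) (by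
    intro y
    obtain ⟨y, rfl⟩ := Additive.ofMul.surjective y
    rw [← ofMul_pow, hV, ofMul_one])) (Subgroup.toAddSubgroup W) (Additive.ofMul x) hx
  exact ⟨h, fun w hw => h1 _ hw, h2⟩

section

variable {F : Type} [Field F] {p : ℕ} {l : Fˣ} {R : ValuationSubring F}

lemma cl_pow (x : Cl (TR p l R)) : x ^ p = 1 := by
  obtain ⟨u, rfl⟩ := cl_surj _ x
  rw [← map_pow, cl_eq_one]
  exact Subgroup.mem_sup_left ⟨u, rfl⟩

/-- elements of `T(R)` have values in `p Γ` -/
lemma val_TR {t : Fˣ} (ht : t ∈ TR p l R) : ∃ f : Fˣ, R.valuation (t : F) =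
    R.valuation (f : F) ^ p := by
  unfold TR at ht
  rw [Subgroup.mem_sup] at ht
  obtain ⟨_, ⟨f, rfl⟩, u, hu, rfl⟩ := ht
  refine ⟨f, ?_⟩
  have h1 : R.valuation (u : F) = 1 := by
    have e : (u : F) = 1 + ((u : F) - 1) := by ring
    rw [e, Valuation.map_one_add_of_lt _ hu.2]
  rw [powMonoidHom_apply, Units.val_mul, map_mul, h1, mul_one, Units.val_pow_eq_pow_val, map_pow]

variable [Fact p.Prime]

/-- a functional which vanishes on the units and not at `c` -/
lemma exists_g {c : Fˣ} (hc : ∀ f : Fˣ, R.valuation ((c * f ^ p : Fˣ) : F) ≠ 1) :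
    ∃ g : Additive (Cl (TR p l R)) →+ ZMod p,
      (∀ u : Fˣ, (∃ f : Fˣ, R.valuation (u : F) = R.valuation (f : F) ^ p) →
        g (Additive.ofMul (cl (TR p l R) u)) = 0) ∧
      g (Additive.ofMul (cl (TR p l R) c)) = 1 := by
  let U : Subgroup (Cl (TR p l R)) :=
    { carrier := {x | ∃ u f : Fˣ, R.valuation (u : F) = R.valuation (f : F) ^ p ∧
        cl (TR p l R) u = x}
      mul_mem' := by
        rintro _ _ ⟨u, f, h1, rfl⟩ ⟨v, e, h2, rfl⟩
        exact ⟨u * v, f * e, by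
          rw [Units.val_mul, Units.val_mul, map_mul, map_mul, h1, h2, mul_pow], map_mul _ _ _⟩
      one_mem' := ⟨1, 1, by simp, map_one _⟩
      inv_mem' := by
        rintro _ ⟨u, f, h1, rfl⟩
        exact ⟨u⁻¹, f⁻¹, by
          rw [Units.val_inv_eq_inv_val, Units.val_inv_eq_inv_val, map_inv₀, map_inv₀, h1,
            inv_pow], map_inv _ _⟩ }
  have hcU : cl (TR p l R) c ∉ U := by
    rintro ⟨u, f, h1, h2⟩
    have h3 : c / u ∈ TR p l R := by
      rw [← cl_eq_one, map_div, h2, div_self']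
    obtain ⟨e, he⟩ := val_TR h3
    apply hc (f * e)⁻¹
    have hu0 : R.valuation (u : F) ≠ 0 := (Valuation.ne_zero_iff _).2 u.ne_zero
    rw [Units.val_div_eq_div_val, map_div₀, div_eq_iff hu0] at he
    rw [Units.val_mul, Units.val_pow_eq_pow_val, Units.val_inv_eq_inv_val, map_mul, map_pow,
      map_inv₀, he, h1, Units.val_mul, map_mul, ← mul_pow, ← mul_pow, mul_comm (R.valuation (e : F))]
    rw [mul_inv_cancel₀, one_pow]
    rw [← map_mul, Valuation.ne_zero_iff]
    exact mul_ne_zero f.ne_zero e.ne_zero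
  obtain ⟨g, hg1, hg2⟩ := exists_functional cl_pow U hcU
  exact ⟨g, fun u ⟨f, hf⟩ => hg1 _ ⟨u, f, hf, rfl⟩, hg2⟩

lemma exists_h_sep {x : Fˣ} (hx : x ∉ TR p l R) : ∃ h : Additive (Cl (TR p l R)) →+ ZMod p,
    h (Additive.ofMul (cl (TR p l R) x)) = 1 := by
  obtain ⟨h, -, h1⟩ := exists_functional (p := p) cl_pow (⊥ : Subgroup (Cl (TR p l R)))
    (x := cl (TR p l R) x) (by
      rw [Subgroup.mem_bot, cl_eq_one]
      exact hx)
  exact ⟨h, h1⟩

/-- if the value of `c` is not in `p Γ`, only the powers of `-c` are orthogonal to `c` -/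
theorem ns_ram (hl : R.valuation (l : F) = 1) {c : Fˣ}
    (hc : ∀ f : Fˣ, R.valuation ((c * f ^ p : Fˣ) : F) ≠ 1) {y : Fˣ}
    (hy : Sy (TR p l R) c y) : ∃ n : ℕ, y / (-c) ^ n ∈ TR p l R := by
  obtain ⟨g, hg1, hg2⟩ := exists_g (p := p) (l := l) hc
  by_contra hcon
  push Not at hcon
  have hyW : cl (TR p l R) y ∉ Subgroup.zpowers (cl (TR p l R) (-c)) := by
    rintro ⟨n, hn⟩
    -- a natural exponent
    have hp0 : (p : ℤ) ≠ 0 := by exact_mod_cast (Fact.out : p.Prime).ne_zero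
    obtain ⟨m, hm⟩ := Int.eq_ofNat_of_zero_le (Int.emod_nonneg n hp0)
    apply hcon m
    rw [← cl_eq_one, map_div, map_pow, div_eq_one, ← hn]
    change cl (TR p l R) (-c) ^ n = _
    conv_lhs => rw [← Int.emod_add_mul_ediv n p, hm, zpow_add, zpow_mul, zpow_natCast,
      zpow_natCast, cl_pow, one_zpow, mul_one]
  obtain ⟨h, hh1, hh2⟩ := exists_functional (p := p) cl_pow _ hyW
  have h1 := form_sy hl h g (fun u hu => hg1 u ⟨1, by rw [hu]; simp⟩) hy
  have h2 := hh1 _ (Subgroup.mem_zpowers _)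
  rw [cl_neg, ofMul_mul, map_add] at h2
  rw [hg2, hh2] at h1
  generalize h (Additive.ofMul (cl (TR p l R) (-1))) = n at h1 h2
  generalize h (Additive.ofMul (cl (TR p l R) c)) = b at h1 h2
  generalize g (Additive.ofMul (cl (TR p l R) y)) = a at h1
  have h3 : (1 : ZMod p) = 0 := by linear_combination (-1) * h1 + a * h2
  exact one_ne_zero h3

/-- a unit (up to `p`-th powers) orthogonal to `c` is in `T(R)` -/
theorem ns_unit (hl : R.valuation (l : F) = 1) {c : Fˣ}
    (hc : ∀ f : Fˣ, R.valuation ((c * f ^ p : Fˣ) : F) ≠ 1) {x : Fˣ}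
    (hx : ∃ f : Fˣ, R.valuation (x : F) = R.valuation (f : F) ^ p)
    (hy : Sy (TR p l R) x c) : x ∈ TR p l R := by
  obtain ⟨g, hg1, hg2⟩ := exists_g (p := p) (l := l) hc
  by_contra hcon
  obtain ⟨h, hh⟩ := exists_h_sep hcon
  have h1 := form_sy hl h g (fun u hu => hg1 u ⟨1, by rw [hu]; simp⟩) hy
  rw [hg2, hg1 x hx, hh] at h1
  have h3 : (1 : ZMod p) = 0 := by linear_combination h1
  exact one_ne_zero h3

end

end Pool.Agent.Helper83.ET
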