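import Pool.Agent.Helper83.ET.Ndi

set_option autoImplicit false

/-! Some component is contained in a nondegenerate indecomposable group. -/

namespace Pool.Agent.Helper83.ET

open scoped TensorProduct
open Pool.Agent.ETC
open Pool.Agent.Helper58.ET (St Ns)
open Pool.Agent.Helper39.ET2 (Nd Split Indec)

section single

variable {F : Type} [Field F] {p : ℕ} {ι : Type} [Finite ι] [DecidableEq ι]

/-- If the symbols modulo `p`-th powers are the direct sum of the symbols modulo the `T i`, then
every nondegenerate indecomposable `T₀ ≠ F*` contains one of the `T i`. -/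
theorem single (T : ι → Subgroup Fˣ)
    (hsy : ∀ a b : Fˣ, (∀ i, Sy (T i) a b) → Sy (pw F p) a b)
    (hsy' : ∀ a b : Fˣ, Sy (pw F p) a b → ∀ i, Sy (T i) a b)
    (hsurj : ∀ x : ι → Fˣ, ∃ y : Fˣ, ∀ i, y / x i ∈ T i)
    {T₀ : Subgroup Fˣ} (h0 : pw F p ≤ T₀) (hne : T₀ ≠ ⊤)
    (hnd : Nd (cl T₀) (Ns (cl T₀))) (hind : Indec (cl T₀) (Ns (cl T₀))) :
    ∃ i, T i ≤ T₀ := by
  -- elements which are in all the other components
  have hmem : ∀ x y : Fˣ, (∀ k, x ∈ T k ∨ y ∈ T k) → Sy T₀ x y := by
    intro x y h
    apply sy_mono h0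
    apply hsy
    intro k
    rcases h k with h1 | h1
    · exact sy_mem' h1
    · exact sy_mem h1
  have hrad : ∀ x : Fˣ, (∀ k, x ∈ T k) → x ∈ T₀ := by
    intro x hx
    rw [← cl_eq_one]
    apply hnd.nd
    intro a
    obtain ⟨y, rfl⟩ := cl_surj _ a
    exact hmem y x fun k => Or.inr (hx k)
  by_contra hcon
  push Not at hcon
  -- the images of the components are trivial
  have hA : ∀ i, ∀ x : Fˣ, (∀ j, j ≠ i → x ∈ T j) → x ∈ T₀ := by
    intro i
    let A : Subgroup Fˣ :=
      { carrier := {x | ∀ j, j ≠ i → x ∈ T j}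
        mul_mem' := fun {a b} ha hb j hj => mul_mem (ha j hj) (hb j hj)
        one_mem' := fun j _ => one_mem _
        inv_mem' := fun {a} ha j hj => inv_mem (ha j hj) }
    have hAm : ∀ x, x ∈ A ↔ ∀ j, j ≠ i → x ∈ T j := fun x => Iff.rfl
    have hAT : ∀ x ∈ A, ∀ y ∈ T i, Sy T₀ x y := by
      intro x hx y hy
      apply hmem
      intro k
      by_cases hk : k = i
      · exact Or.inr (hk ▸ hy)
      · exact Or.inl (hx k hk)
    have hdec : ∀ z : Fˣ, ∃ x ∈ A, ∃ y ∈ T i, z = x * y := by
      intro z
      obtain ⟨x, hx⟩ := hsurj fun k => if k = i then z else 1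
      refine ⟨x, ?_, z / x, ?_, (mul_div_cancel x z).symm⟩
      · intro j hj
        have := hx j
        rwa [if_neg hj, div_one] at this
      · have := hx i
        rw [if_pos rfl] at this
        have h1 := inv_mem this
        rwa [inv_div] at h1
    have hinf : ∀ g : Cl T₀, g ∈ A.map (cl T₀) → g ∈ (T i).map (cl T₀) → g = 1 := by
      rintro g ⟨x, hx, rfl⟩ ⟨y, hy, hxy⟩
      apply hnd.nd
      intro a
      obtain ⟨z, rfl⟩ := cl_surj _ a
      obtain ⟨x', hx', y', hy', rfl⟩ := hdec z
      have h1 : Sy T₀ y x' := sy_symm (hAT x' hx' y hy)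
      have h2 : Sy T₀ x y' := hAT x hx y' hy'
      have h3 : Sy T₀ x x' := by
        unfold Sy at h1 ⊢
        rwa [← hxy]
      exact sy_symm (sy_mul h3 h2)
    have hS : Split (cl T₀) (Ns (cl T₀)) (A.map (cl T₀)) ((T i).map (cl T₀)) := by
      refine ⟨?_, ?_, ?_, ?_⟩
      · rw [eq_top_iff]
        intro a _
        obtain ⟨z, rfl⟩ := cl_surj _ a
        obtain ⟨x, hx, y, hy, rfl⟩ := hdec z
        rw [map_mul]
        exact mul_mem (Subgroup.mem_sup_left ⟨x, hx, rfl⟩) (Subgroup.mem_sup_right ⟨y, hy, rfl⟩)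
      · rw [eq_bot_iff]
        rintro g ⟨hg1, hg2⟩
        exact Subgroup.mem_bot.2 (hinf g hg1 hg2)
      · rintro _ ⟨x, hx, rfl⟩ _ ⟨y, hy, rfl⟩
        exact hAT x hx y hy
      · intro u v huv h hh k hk h' hh' k' hk' hu hv
        obtain ⟨x, hx, y, hy, rfl⟩ := hdec u
        obtain ⟨x', hx', y', hy', rfl⟩ := hdec v
        -- the components are those of `u` and `v`
        have hcomp : ∀ a b : Fˣ, a ∈ A → b ∈ T i → ∀ h k : Cl T₀, h ∈ A.map (cl T₀) →
            k ∈ (T i).map (cl T₀) → cl T₀ (a * b) = h * k → h = cl T₀ a ∧ k = cl T₀ b := by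
          intro a b ha hb h k hh hk e
          rw [map_mul] at e
          have h1 : h / cl T₀ a = 1 := by
            apply hinf
            · exact div_mem hh ⟨a, ha, rfl⟩
            · have e1 : h / cl T₀ a = cl T₀ b / k := by
                rw [div_eq_div_iff_mul_eq_mul, ← e, mul_comm]
              rw [e1]
              exact div_mem ⟨b, hb, rfl⟩ hk
          rw [div_eq_one] at h1
          refine ⟨h1, ?_⟩
          rw [h1] at e
          exact (mul_left_cancel e).symm
        obtain ⟨rfl, rfl⟩ := hcomp x y hx hy h k hh hk hu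
        obtain ⟨rfl, rfl⟩ := hcomp x' y' hx' hy' h' k' hh' hk' hv
        have hsym : ∀ k, Sy (T k) (x * y) (x' * y') := hsy' _ _ (sy_sum huv)
        constructor
        · change Sy T₀ x x'
          apply sy_mono h0
          apply hsy
          intro k
          by_cases hk : k = i
          · subst hk
            refine sy_congr ?_ ?_ (hsym k)
            · rwa [mul_div_cancel_left]
            · rwa [mul_div_cancel_left]
          · exact sy_mem (hx' k hk)
        · change Sy T₀ y y'
          apply sy_mono h0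
          apply hsy
          intro k
          by_cases hk : k = i
          · subst hk
            exact sy_mem hy'
          · refine sy_congr ?_ ?_ (hsym k)
            · rw [mul_div_cancel_right]
              exact hx k hk
            · rw [mul_div_cancel_right]
              exact hx' k hk
    rcases hind _ _ hS with h1 | h1
    · intro x hx
      have h2 : cl T₀ x ∈ A.map (cl T₀) := ⟨x, hx, rfl⟩
      rw [h1, Subgroup.mem_bot, cl_eq_one] at h2
      exact h2
    · exfalso
      apply hcon i
      intro x hx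
      have h2 : cl T₀ x ∈ (T i).map (cl T₀) := ⟨x, hx, rfl⟩
      rw [h1, Subgroup.mem_bot, cl_eq_one] at h2
      exact h2
  -- so everything is trivial
  apply hne
  rw [eq_top_iff]
  intro z _
  have _ := Fintype.ofFinite ι
  choose x hx using fun i => hsurj fun k => if k = i then z else 1
  have h1 : ∀ i, x i ∈ T₀ := by
    intro i
    apply hA i
    intro j hj
    have := hx i j
    rwa [if_neg hj, div_one] at this
  have h2 : z / ∏ i, x i ∈ T₀ := by
    apply hrad
    intro k
    rw [← Finset.mul_prod_erase Finset.univ x (Finset.mem_univ k), div_mul_eq_div_div]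
    apply div_mem
    · have := hx k k
      rw [if_pos rfl] at this
      have h3 := inv_mem this
      rwa [inv_div] at h3
    · apply Subgroup.prod_mem
      intro i hi
      have := hx i k
      rwa [if_neg (Finset.ne_of_mem_erase hi).symm, div_one] at this
  rw [← div_mul_cancel z (∏ i, x i)]
  exact mul_mem h2 (Subgroup.prod_mem _ fun i _ => h1 i)

/-- at most one `T i` is contained in `T₀` -/
theorem single_unique (T : ι → Subgroup Fˣ)
    (hsurj : ∀ x : ι → Fˣ, ∃ y : Fˣ, ∀ i, y / x i ∈ T i)
    {T₀ : Subgroup Fˣ} (hne : T₀ ≠ ⊤) {i j : ι} (hi : T i ≤ T₀) (hj : T j ≤ T₀) : i = j := by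
  by_contra hij
  apply hne
  rw [eq_top_iff]
  intro z _
  obtain ⟨y, hy⟩ := hsurj fun k => if k = i then z else 1
  have h1 := hy i
  rw [if_pos rfl] at h1
  have h2 := hy j
  rw [if_neg (Ne.symm hij), div_one] at h2
  have h3 := inv_mem (hi h1)
  rw [inv_div] at h3
  have h4 := mul_mem h3 (hj h2)
  rwa [div_mul_cancel] at h4

end single

end Pool.Agent.Helper83.ET
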